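import Pool.Agent.Lib.MP_688fd0_co.OSF.Iface

/-! Module W1: the window for `s = a ^ c`. -/

set_option autoImplicit false

namespace Pool.Agent.Lib.MP_688fd0_co.OSF.H94

open Finset

universe u v

variable {Q : Type u} [Group Q] {B : Lb.{u, v} Q}

lemma fin_append (l l' : List B.L) : ∀ x : Q, B.fin x (l ++ l') = B.fin (B.fin x l) l' := by
  induction l with
  | nil => intro x; rfl
  | cons g l ih => intro x; exact ih _

lemma verts_concat (l : List B.L) (g : B.L) :
    ∀ x : Q, B.verts x (l ++ [g]) = B.verts x l ++ [B.fin x l * B.q g] := by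
  induction l with
  | nil => intro x; rfl
  | cons h l ih =>
    intro x
    change x :: B.verts (x * B.q h) (l ++ [g]) = _
    rw [ih]
    rfl

lemma fin_rep (a : B.L) (k : ℕ) : ∀ x : Q, B.fin x (List.replicate k a) = x * B.q a ^ k := by
  induction k with
  | zero => intro x; rw [pow_zero, mul_one]; rfl
  | succ k ih =>
    intro x
    rw [List.replicate_succ]
    change B.fin (x * B.q a) (List.replicate k a) = _
    rw [ih, pow_succ', mul_assoc]

lemma verts_rep (a : B.L) (k : ℕ) : ∀ x : Q, B.verts x (List.replicate k a) =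
    (List.range (k + 1)).map fun i => x * B.q a ^ i := by
  induction k with
  | zero =>
    intro x
    simp [Lb.verts]
  | succ k ih =>
    intro x
    rw [List.replicate_succ, List.range_succ_eq_map, List.map_cons, pow_zero, mul_one,
      List.map_map]
    change x :: B.verts (x * B.q a) (List.replicate k a) = _
    rw [ih]
    congr 1
    apply List.map_congr_left
    intro i _
    change x * B.q a * B.q a ^ i = x * B.q a ^ (i + 1)
    rw [pow_succ', mul_assoc]

/-- the reversed line -/
lemma verts_inv (a : B.L) (k : ℕ) : ∀ x : Q, B.verts (x * B.q a ^ k)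
    (List.replicate k (B.inv a)) = (B.verts x (List.replicate k a)).reverse := by
  induction k with
  | zero => intro x; simp [Lb.verts]
  | succ k ih =>
    intro x
    rw [List.replicate_succ' (a := a), verts_concat, List.reverse_append, List.replicate_succ,
      fin_rep]
    change x * B.q a ^ (k + 1) :: B.verts (x * B.q a ^ (k + 1) * B.q (B.inv a))
      (List.replicate k (B.inv a)) = _
    rw [B.q_inv, pow_succ, ← mul_assoc, mul_inv_cancel_right, ih]
    rfl

lemma fin_inv (a : B.L) (k : ℕ) (x : Q) :
    B.fin (x * B.q a ^ k) (List.replicate k (B.inv a)) = x := by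
  rw [fin_rep, B.q_inv, inv_pow, mul_inv_cancel_right]

section vol

variable {R : Type*} [CommRing R] (V : Vd B R)

lemma vol_append (l l' : List B.L) :
    ∀ x : Q, V.vol x (l ++ l') = V.vol x l + V.vol (B.fin x l) l' := by
  induction l with
  | nil => intro x; simp [Vd.vol, Lb.fin]
  | cons g l ih =>
    intro x
    change V.chi x * V.n g + V.vol (x * B.q g) (l ++ l') = _
    rw [ih, ← add_assoc]
    rfl

lemma vol_rep (a : B.L) (k : ℕ) : ∀ x : Q, (V.chi (B.q a) - 1) * V.vol x (List.replicate k a) =
    V.chi x * (V.chi (B.q a) ^ k - 1) * V.n a := by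
  induction k with
  | zero => intro x; simp [Vd.vol]
  | succ k ih =>
    intro x
    rw [List.replicate_succ]
    change (V.chi (B.q a) - 1) * (V.chi x * V.n a + V.vol (x * B.q a) (List.replicate k a)) = _
    rw [mul_add, ih, map_mul]
    ring

lemma chi_inv (x : Q) : V.chi x * V.chi x⁻¹ = 1 := by
  rw [← map_mul, mul_inv_cancel, map_one]

lemma vol_inv (a : B.L) (k : ℕ) : ∀ x : Q, V.vol (x * B.q a ^ k)
    (List.replicate k (B.inv a)) = - V.vol x (List.replicate k a) := by
  induction k with
  | zero => intro x; simp [Vd.vol]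
  | succ k ih =>
    intro x
    rw [List.replicate_succ' (a := a), vol_append, List.replicate_succ, fin_rep]
    change V.chi (x * B.q a ^ (k + 1)) * V.n (B.inv a) +
      V.vol (x * B.q a ^ (k + 1) * B.q (B.inv a)) (List.replicate k (B.inv a)) =
      -(V.vol x (List.replicate k a) + (V.chi (x * B.q a ^ k) * V.n a + 0))
    rw [B.q_inv, pow_succ, ← mul_assoc, mul_inv_cancel_right, ih, V.n_inv, map_mul V.chi _ (B.q a)]
    have h := chi_inv V (B.q a)
    linear_combination (-(V.chi (x * B.q a ^ k)) * V.n a) * h

/-- the change of volume -/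
lemma vol_change (a s : B.L) (k : ℕ) (hs : B.q s = B.q a ^ (k + 1)) :
    (V.chi (B.q a) - 1) * (V.vol 1 (s :: (List.replicate k (B.inv a) ++ [s])) -
      V.vol 1 (List.replicate (k + 2) a)) = (1 + V.chi (B.q a)) * V.kap a s := by
  have h1 : V.vol 1 (s :: (List.replicate k (B.inv a) ++ [s])) =
      V.n s - V.vol (B.q a) (List.replicate k a) + V.chi (B.q a) * V.n s := by
    change V.chi 1 * V.n s + V.vol (1 * B.q s) (List.replicate k (B.inv a) ++ [s]) = _
    rw [one_mul, hs, pow_succ', vol_append, vol_inv, fin_inv, map_one]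
    change 1 * V.n s + (-V.vol (B.q a) (List.replicate k a) + (V.chi (B.q a) * V.n s + 0)) = _
    ring
  have h2 := vol_rep V a k (B.q a)
  have h3 := vol_rep V a (k + 2) 1
  rw [map_one] at h3
  have h4 : V.chi (B.q s) = V.chi (B.q a) ^ (k + 1) := by rw [hs, map_pow]
  rw [h1, mul_sub, h3]
  unfold Vd.kap
  rw [h4]
  linear_combination (-1 : R) * h2

end vol

lemma one_add_chi {p : ℕ} (V : Vd B (ZMod p)) (hp : p.Prime) (hp2 : p ≠ 2)
    (hQ : Odd (Nat.card Q)) (x : Q) : 1 + V.chi x ≠ 0 := by
  intro h
  have : Fact p.Prime := ⟨hp⟩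
  have h1 : V.chi x = -1 := by linear_combination h
  have h2 : V.chi x ^ Nat.card Q = 1 := by
    rw [← map_pow, pow_card_eq_one', map_one]
  rw [h1, hQ.neg_one_pow] at h2
  have h3 : ((2 : ℕ) : ZMod p) = 0 := by
    push_cast
    linear_combination (-1 : ZMod p) * h2
  rw [ZMod.natCast_eq_zero_iff] at h3
  exact hp2 ((Nat.prime_dvd_prime_iff_eq hp Nat.prime_two).1 h3)

/-- W1. -/
theorem w1 : W1S.{u, v} := by
  intro Q _ B p V a s c hy hc1 hc hs hkap
  classical
  obtain ⟨k, rfl⟩ : ∃ k, c = k + 1 := ⟨c - 1, by omega⟩
  have hp : Fact p.Prime := ⟨hy.prime⟩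
  set A := B.q a with hA
  set st : Strand B := ⟨1, List.replicate (k + 2) a, s :: (List.replicate k (B.inv a) ++ [s])⟩
    with hst
  have hvb : st.vb = (List.range (k + 3)).map fun i => A ^ i := by
    change B.verts 1 (List.replicate (k + 2) a) = _
    rw [verts_rep]
    apply List.map_congr_left
    intro i _
    rw [one_mul]
  have hva : st.va = 1 :: ((B.verts A (List.replicate k a)).reverse ++ [A * A ^ (k + 1)]) := by
    change 1 :: B.verts (1 * B.q s) (List.replicate k (B.inv a) ++ [s]) = _
    rw [one_mul, hs, pow_succ', verts_concat, verts_inv, fin_inv, hs, pow_succ']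
  have hvb' : st.vb = 1 :: (B.verts A (List.replicate k a) ++ [A * A ^ (k + 1)]) := by
    have e : List.replicate (k + 2) a = a :: (List.replicate k a ++ [a]) := by
      rw [List.replicate_succ, List.replicate_succ']
    change B.verts 1 (List.replicate (k + 2) a) = _
    rw [e]
    change 1 :: B.verts (1 * B.q a) (List.replicate k a ++ [a]) = _
    rw [one_mul, verts_concat, fin_rep, mul_assoc, ← pow_succ]
  refine ⟨⟨[], [], [st], (range (k + 3)).image fun i => A ^ i⟩, ?_, ?_, ?_, ?_⟩
  · constructor
    · simp
    · simp
    · intro t ht x hx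
      rw [List.mem_singleton] at ht
      rw [ht, hvb, List.mem_map] at hx
      obtain ⟨i, hi, rfl⟩ := hx
      rw [Finset.mem_image]
      exact ⟨i, by rwa [Finset.mem_range, ← List.mem_range], rfl⟩
    · constructor
      · intro t ht
        rw [List.mem_singleton] at ht
        rw [ht, hst, List.replicate_succ]
        exact List.cons_ne_nil _ _
      · intro t ht
        rw [List.mem_singleton] at ht
        rw [ht, hst]
        change B.fin 1 (List.replicate (k + 2) a) =
          B.fin (1 * B.q s) (List.replicate k (B.inv a) ++ [s])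
        rw [fin_rep, one_mul, one_mul, hs, pow_succ', pow_succ', fin_append, fin_inv]
        change _ = B.q a * B.q s
        rw [hs, pow_succ']
      · rw [List.flatMap_singleton, hvb]
        apply List.Nodup.map_on _ List.nodup_range
        intro i hi j hj hij
        rw [List.mem_range] at hi hj
        have hb : 1000 ≤ orderOf A := hy.big
        exact pow_injOn_Iio_orderOf (Set.mem_Iio.2 (by omega)) (Set.mem_Iio.2 (by omega)) hij
      · rw [List.flatMap_singleton, List.flatMap_singleton, hva, hvb']
        exact (((List.reverse_perm _).append_right _)).cons _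
    · intro t ht
      rw [List.mem_singleton] at ht
      rw [ht, hvb, List.isChain_map]
      rw [List.isChain_iff_getElem]
      intro i hi
      simp only [List.getElem_range]
      left
      refine ⟨?_, ?_⟩
      · exact pow_succ A i
      · rintro ⟨b, hb, -⟩
        simp at hb
    · simp
    · simp
  · refine Finset.card_image_le.trans ?_
    rw [Finset.card_range]
    omega
  · simp
  · intro l hl
    obtain ⟨t, b, rfl, rfl⟩ : ∃ (t : Strand B) (b : Bool), l = [(t, b)] ∧ t = st := by
      cases l with
      | nil => simp at hl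
      | cons q l =>
        simp only [List.map_cons, List.cons.injEq, List.map_eq_nil_iff] at hl
        exact ⟨q.1, q.2, by rw [hl.2], hl.1⟩
    have h1 := vol_change V a s k hs
    have h2 := one_add_chi V hy.prime hy.ne_two hy.odd (B.q a)
    have h3 : V.vol 1 (s :: (List.replicate k (B.inv a) ++ [s])) -
      V.vol 1 (List.replicate (k + 2) a) ≠ 0 := by
      intro h0
      rw [h0, mul_zero] at h1
      exact mul_ne_zero h2 hkap h1.symm
    unfold Vd.dlt
    simp only [List.map_cons, List.map_nil, List.sum_cons, List.sum_nil, add_zero]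
    apply mul_ne_zero
    · cases b
      · simp
      · simp
    · exact h3

end Pool.Agent.Lib.MP_688fd0_co.OSF.H94
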